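import Pool.Agent.Lib.HY.B_MAIN
import Pool.Agent.Lib.HY.B_SCT
import Pool.Agent.Lib.HY.B_SCQ2
import Pool.Agent.Lib.HY.B_CG
import Pool.Agent.Lib.HY.B_BALL
import Pool.Agent.Lib.HY.B_ONS
import Pool.Agent.Lib.HY.B_RAD
import Pool.Agent.Lib.HY.B_TFL
import Pool.Agent.Lib.HY.B_REP
import Pool.Agent.Lib.HY.B_SMALL
import Pool.Agent.Lib.HY.B_LARGE
import Pool.Agent.Lib.HY.B_THETA
import Pool.Agent.Lib.HY.B_MAD
import Pool.Agent.Lib.HY.B_WIN
import Pool.Agent.Lib.HY.B_MODES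
import Pool.Agent.Lib.HY.B_ANG2
import Pool.Agent.Lib.HY.B_EXC
import Pool.Agent.Lib.HY.B_QU

open Pool.Agent.Lib.MP_f7be6d_mp

namespace Pool.Agent.Results.MP_f7be6d_mp.Hydrogen

open Pool.Agent.Lib.HY in
/-- For all reals e and B there are k ≥ 1 nuclei of charge one at distinct points such that, with
k electrons, the Thomas-Fermi energy equals e and the quantum energy lies below B. -/
theorem result (e B : ℝ) : ∃ (k : ℕ) (R : Fin k → E3), 1 ≤ k ∧ Function.Injective R ∧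
    tfEnergy k (fun _ => 1) R = (e : EReal) ∧ quantumEnergy k (fun _ => 1) R < (B : EReal) :=
  have hM : St_MAD := st_MAD st_REP (st_SMALL st_LARGE) st_LARGE st_THETA
  goal st_SCT st_SCQ2 st_CG (st_TFL st_BALL (st_ONS st_BALL) st_RAD) hM
    (st_QU hM st_WIN (st_EXC st_MODES st_ANG2 st_COS2)) e B

end Pool.Agent.Results.MP_f7be6d_mp.Hydrogen
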