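import Pool.Agent.Lib.MP_f7be6d_mp.TFLower
import Pool.Agent.Lib.MP_f7be6d_mp.QUpper

open Pool.Agent.Lib.MP_f7be6d_mp

namespace Pool.Agent.Results.MP_f7be6d_mp.SmallChargeCounterexample

/-- For one electron and one nucleus (at the origin) of sufficiently small charge z > 0,
the quantum energy lies strictly below the Thomas-Fermi energy. -/
theorem result : ∃ z₀ : ℝ, 0 < z₀ ∧ ∀ z : ℝ, 0 < z → z < z₀ →
    quantumEnergy 1 (fun _ : Fin 1 => z) (fun _ => 0)
      < tfEnergy 1 (fun _ : Fin 1 => z) (fun _ => 0) := by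
  obtain ⟨c, hc, hq⟩ := quantum_upper
  have hI := Ione_nonneg
  set η : ℝ := c / (4 * (Ione + 1)) with hη
  have hηpos : 0 < η := by positivity
  set K : ℝ := 4 / c with hK
  have hKpos : 0 < K := by positivity
  refine ⟨c / 4 * (η ^ 2) ^ 2 / K, by positivity, fun z hz hz0 => ?_⟩
  have hlow : ((-(3 / 4 * c * z ^ 2) : ℝ) : EReal)
      ≤ tfEnergy 1 (fun _ : Fin 1 => z) (fun _ => 0) := by
    refine le_iInf fun ρ => ?_
    rw [EReal.coe_le_coe_iff]
    refine le_trans ?_ (tf_atom_lower ρ.2 hz (δ := η ^ 2) (K := K) (by positivity) hKpos)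
    have h1 : (η ^ 2) ^ (1 / 2 : ℝ) = η := by
      rw [← Real.sqrt_eq_rpow, Real.sqrt_sq hηpos.le]
    have h2 : 2 / 5 * Ione * η ≤ c / 4 := by
      have : (Ione + 1) * η = c / 4 := by rw [hη]; field_simp
      nlinarith [mul_nonneg hI hηpos.le]
    have h3 : z * K / (η ^ 2) ^ 2 ≤ c / 4 := by
      rw [div_le_iff₀ (by positivity)]
      rw [lt_div_iff₀ hKpos] at hz0
      exact hz0.le
    have h4 : ((1 : ℕ) : ℝ) / K = c / 4 := by rw [hK]; field_simp; simp
    rw [h1, h4]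
    nlinarith [sq_nonneg z]
  refine lt_of_le_of_lt (hq z hz) (lt_of_lt_of_le ?_ hlow)
  rw [EReal.coe_lt_coe_iff]
  nlinarith [mul_pos hc (pow_pos hz 2)]

end Pool.Agent.Results.MP_f7be6d_mp.SmallChargeCounterexample
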