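import Pool.Agent.Lib.TFS49.Kato
import Pool.Agent.Lib.MP_f7be6d_mp.Unit.Main

open Pool.Agent.Lib.MP_f7be6d_mp TFS49

namespace Pool.Agent.Results.MP_f7be6d_mp.Spectral

/-- For every nuclear charge z > 0 there are k ≥ 1 nuclei of charge z at distinct points such that,
with N = floor(z k) ≥ 1 electrons, the bottom E of the spectrum of the self-adjoint operator H_N
is a real number strictly below the Thomas-Fermi energy. -/
theorem result (z : ℝ) (hz : 0 < z) : ∃ (k N : ℕ) (R : Fin k → E3) (E : ℝ),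
    1 ≤ k ∧ N = ⌊z * k⌋₊ ∧ 1 ≤ N ∧ Function.Injective R ∧
      IsEQ N (fun _ => z) R E ∧ (E : EReal) < tfEnergy N (fun _ => z) R := by
  obtain ⟨k, R, h1, h2, h3⟩ := Unit.unit_main hz
  obtain ⟨E, a, b, c⟩ := exists_isEQ ⌊z * k⌋₊ (fun _ : Fin k => z) R
  have d := c.trans_lt h3
  lift E to ℝ using ⟨d.ne_top, a.ne'⟩
  refine ⟨k, _, R, E, ?_, rfl, h1, h2, b, d⟩
  rcases Nat.eq_zero_or_pos k with rfl | hk
  · simp at h1
  · exact hk

end Pool.Agent.Results.MP_f7be6d_mp.Spectral
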